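import Pool.Agent.P8H37.CY.Dim

set_option autoImplicit false

/-!
# Topological types of Calabi–Yau varieties: reduction to the case of an irreducible cover

By the theorem of Beauville and Bogomolov every smooth Calabi–Yau variety `X` is the quotient of a
product `T × V_1 × ⋯ × V_r` by a finite group `G`, where `T` is a complex torus and where the `V_i`
are simply connected, either Calabi–Yau varieties in the strict sense or hyperkähler varieties; `G`
acts by affine maps on `T`, and on the product of the `V_i` by isomorphisms which permute the
factors.

The theorem below is about all the quotients of this form (`TorusQuotient`). If the pairs `(V, F)`,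
where `dim V < n` and where `F` is a finite group of isomorphisms `V → V`, have only finitely many
topological types then there are only finitely many topological types of the quotients `X` of
dimension `n`, apart from those of the form `V / G` where `V` is of dimension `n`.
-/

universe u v

open Pool.Agent.P8H37.CY in
theorem Pool.Agent.Results.MP_3d72f2_ag.ReductionToIrreducibleCover.result
    {ι : Type u} {V : ι → Type v} [∀ i, TopologicalSpace (V i)] [∀ i, Nonempty (V i)]
    (Iso : ∀ i j, Set (V i ≃ₜ V j)) (dim : ι → ℕ) (hdim : ∀ i, 0 < dim i) (n : ℕ)
    (hpairs : FinClasses (fun P Q : Pair Iso (fun i => dim i < n) => P.Equivalent Q)) :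
    FinClasses (fun X Y : {X : TorusQuotient Iso //
        X.dimension dim = n ∧ ¬ (X.k = 0 ∧ X.r = 1)} =>
      Nonempty (X.1.Space ≃ₜ Y.1.Space)) :=
  finite_dim dim hdim n hpairs
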